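import Mathlib

set_option autoImplicit false

/-!
# Monochromatic symmetric subsets of Abelian groups, in ZFC

For every cardinal `κ` and every infinite Abelian group `G` of cardinality greater than `κ`, each
colouring of `G` with finitely many colours has a monochromatic symmetric subset of cardinality at
least `κ`. No assumption beyond ZFC is used.

Outline. Let `κ` be infinite. If `B = {x | x + x = 0}` has more than `κ` elements, all subsets of
`B` are symmetric. Otherwise there are `κ⁺` different elements `a ξ` of the form `g + g`. Colour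
the pair `ξ < η` by the colour of `a η - a ξ`. It suffices to find `α < β` and a colour `j` such
that for `κ` many `ξ` between `α` and `β` both pairs `α < ξ` and `ξ < β` have colour `j`:
the points `a ξ - a α` and `a β - a ξ` are symmetric about half of `a β - a α`. Such `α, β, j`
exist by `pairs_infinite`: take for `β` a closure point of a suitable bounding function.
-/

namespace Pool.Agent.Results.MP_d56e90_lc.ZFCAnswer

open Cardinal Set

universe u

/-- `A` is symmetric: `A = g - A + g` for some `g`. -/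
def IsSymmetric {G : Type u} [AddGroup G] (A : Set G) : Prop :=
  ∃ g : G, A = (fun x => g + -x + g) '' A

/-- Some colouring of `G` with `r` colours has no monochromatic symmetric subset of cardinality at
least `κ`. The cardinal `ν(G, κ)` is the least `r` with this property. -/
def Avoids (G : Type u) [AddGroup G] (κ r : Cardinal.{u}) : Prop :=
  ∃ (R : Type u) (χ : G → R), #R = r ∧
    ¬ ∃ A : Set G, IsSymmetric A ∧ (∀ x ∈ A, ∀ y ∈ A, χ x = χ y) ∧ κ ≤ #A

/-- the combinatorial principle for pairs, infinite case -/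
theorem pairs_infinite {κ : Cardinal.{u}} (hκ : ℵ₀ ≤ κ) {W R : Type u} [LinearOrder W]
    [WellFoundedLT W] [Nonempty W] (hIic : ∀ x : W, #(Iic x) ≤ κ)
    (hbdd : ∀ A : Set W, #A ≤ κ → ∃ b, ∀ a ∈ A, a < b) (hR : #R < ℵ₀) (c : W → W → R) :
    ∃ α β j, κ ≤ #{ξ | α < ξ ∧ ξ < β ∧ c α ξ = j ∧ c ξ β = j} := by
  classical
  have : Finite R := Cardinal.lt_aleph0_iff_finite.1 hR
  -- the sets of points which look the same
  let Z : Set R → (R → W) → Set W := fun J a => {z | ∀ j ∈ J, a j < z ∧ c (a j) z = j}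
  have hb : ∀ J a, ∃ b : W, ∀ z ∈ Z J a, #(Z J a ∩ Iio z : Set W) < κ → z < b := by
    intro J a
    by_contra hcon
    push Not at hcon
    let B : Set W := {z | z ∈ Z J a ∧ #(Z J a ∩ Iio z : Set W) < κ}
    have hunb : ∀ b, ∃ z ∈ B, b ≤ z := by
      intro b
      obtain ⟨z, h1, h2, h3⟩ := hcon b
      exact ⟨z, ⟨h1, h2⟩, h3⟩
    have hB : κ ≤ #B := by
      by_contra hlt
      obtain ⟨b, hb⟩ := hbdd B (not_le.1 hlt).le
      obtain ⟨z, hz, hbz⟩ := hunb b
      exact absurd (hb z hz) (not_lt.2 hbz)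
    obtain ⟨B', hB', hB'c⟩ := le_mk_iff_exists_subset.1 hB
    obtain ⟨b, hb⟩ := hbdd B' hB'c.le
    obtain ⟨z, hz, hbz⟩ := hunb b
    have h1 : κ ≤ #(Z J a ∩ Iio z : Set W) := by
      rw [← hB'c]
      exact mk_le_mk_of_subset fun x hx => ⟨(hB' hx).1, (hb x hx).trans_le hbz⟩
    exact absurd hz.2 (not_lt.2 h1)
  choose b hb using hb
  -- closure
  have hs : ∀ x : W, ∃ y, x < y ∧ ∀ J a, (∀ j, a j ≤ x) → b J a < y := by
    intro x
    obtain ⟨y, hy⟩ := hbdd ({x} ∪ range fun p : Set R × (R → Iic x) => b p.1 fun j => (p.2 j).1) (by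
      refine (mk_union_le _ _).trans ?_
      refine (add_le_add (b := κ) (d := κ) ?_ ?_).trans (add_eq_self hκ).le
      · rw [mk_singleton]
        exact one_le_aleph0.trans hκ
      · refine mk_range_le.trans ?_
        rw [mk_prod, lift_id, lift_id, mk_set, ← power_def]
        refine (mul_le_mul' (b := κ) (d := κ) ?_ ?_).trans (mul_eq_self hκ).le
        · exact ((power_lt_aleph0 natCast_lt_aleph0 hR).le).trans hκ
        · obtain ⟨n, hn⟩ := lt_aleph0.1 hR
          rw [hn, power_natCast]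
          refine (pow_le_pow_left' (hIic x) n).trans ?_
          exact power_nat_le hκ)
    refine ⟨y, hy x (Or.inl rfl), fun J a ha => ?_⟩
    exact hy _ (Or.inr ⟨(J, fun j => ⟨a j, ha j⟩), rfl⟩)
  choose s hs1 hs2 using hs
  let x0 : W := Classical.arbitrary W
  let t : ℕ → W := fun n => s^[n] x0
  have ht : ∀ n, t (n + 1) = s (t n) := fun n => Function.iterate_succ_apply' s n x0
  have htm : StrictMono t := strictMono_nat_of_lt_succ fun n => by rw [ht]; exact hs1 _
  obtain ⟨w, hw⟩ := hbdd (range t) (((le_aleph0_iff_set_countable.2 (countable_range t)).trans hκ))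
  let U : Set W := {y | ∀ n, t n ≤ y}
  have hU : U.Nonempty := ⟨w, fun n => (hw _ ⟨n, rfl⟩).le⟩
  let δ : W := (wellFounded_lt (α := W)).min U hU
  have hδ : ∀ n, t n < δ := fun n =>
    (htm (Nat.lt_succ_self n)).trans_le ((wellFounded_lt (α := W)).min_mem U hU (n + 1))
  have hδ' : ∀ x < δ, ∃ n, x < t n := by
    intro x hx
    by_contra hcon
    push Not at hcon
    exact (wellFounded_lt (α := W)).not_lt_min U hcon hx
  -- the last point is `δ`
  let J : Set R := {j | ∃ ξ < δ, c ξ δ = j}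
  have ha : ∀ j : R, ∃ x, x < δ ∧ (j ∈ J → c x δ = j) := by
    intro j
    by_cases hj : j ∈ J
    · obtain ⟨ξ, h1, h2⟩ := hj
      exact ⟨ξ, h1, fun _ => h2⟩
    · exact ⟨x0, hδ 0, fun h => absurd h hj⟩
  choose a ha1 ha2 using ha
  have hbδ : b J a < δ := by
    choose n hn using fun j => hδ' (a j) (ha1 j)
    obtain ⟨m, hm⟩ : ∃ m, ∀ j, n j ≤ m := by
      obtain ⟨m, hm⟩ := (Set.finite_range n).bddAbove
      exact ⟨m, fun j => hm ⟨j, rfl⟩⟩
    have h1 := hs2 (t m) J a fun j => ((hn j).trans_le (htm.monotone (hm j))).le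
    rw [← ht] at h1
    exact h1.trans (hδ _)
  have hδZ : δ ∈ Z J a := fun j hj => ⟨ha1 j, ha2 j hj⟩
  have hbig : κ ≤ #(Z J a ∩ Iio δ : Set W) := by
    by_contra hlt
    exact absurd (hb J a δ hδZ (not_le.1 hlt)) (not_lt.2 hbδ.le)
  have hcof : #R < κ.ord.cof := by
    refine hR.trans_le (Ordinal.aleph0_le_cof.2 (isSuccLimit_ord hκ))
  obtain ⟨j, hj⟩ := infinite_pigeonhole_card (fun ξ : (Z J a ∩ Iio δ : Set W) => c ξ.1 δ) κ hbig hκ
    hcof
  have hne : ((fun ξ : (Z J a ∩ Iio δ : Set W) => c ξ.1 δ) ⁻¹' {j}).Nonempty := by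
    rw [← Set.nonempty_coe_sort, ← mk_ne_zero_iff]
    intro h0
    rw [h0] at hj
    exact absurd (hκ.trans hj) (not_le.2 aleph0_pos)
  obtain ⟨ξ0, hξ0⟩ := hne
  have hjJ : j ∈ J := ⟨ξ0.1, ξ0.2.2, hξ0⟩
  refine ⟨a j, δ, j, hj.trans ?_⟩
  rw [← mk_image_eq (f := fun ξ : (Z J a ∩ Iio δ : Set W) => ξ.1) Subtype.val_injective]
  refine mk_le_mk_of_subset ?_
  rintro _ ⟨ξ, hξ, rfl⟩
  exact ⟨(ξ.2.1 j hjJ).1, ξ.2.2, (ξ.2.1 j hjJ).2, hξ⟩

/-- the combinatorial principle for pairs, finite case -/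
theorem pairs_finite (n : ℕ) {R : Type u} [Finite R] (c : ℕ → ℕ → R) :
    ∃ α β j, ∃ S : Finset ℕ, S.card = n ∧ ∀ ξ ∈ S, α < ξ ∧ ξ < β ∧ c α ξ = j ∧ c ξ β = j := by
  classical
  let U : Ultrafilter ℕ := Filter.hyperfilter ℕ
  have h1 : ∀ α, ∃ j, ∀ᶠ ξ in (U : Filter ℕ), c α ξ = j := fun α =>
    Ultrafilter.eventually_exists_iff.1 (Filter.Eventually.of_forall fun ξ => ⟨c α ξ, rfl⟩)
  choose J hJ using h1
  obtain ⟨j, hj⟩ := (Ultrafilter.eventually_exists_iff (f := U) (P := fun j α => J α = j)).1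
    (Filter.Eventually.of_forall fun α => ⟨J α, rfl⟩)
  have hgt : ∀ α : ℕ, ∀ᶠ ξ in (U : Filter ℕ), α < ξ := fun α =>
    (Filter.hyperfilter_le_cofinite (α := ℕ)) (by
      rw [Nat.cofinite_eq_atTop]
      exact Filter.eventually_gt_atTop α)
  obtain ⟨α, hα⟩ := hj.exists
  have hinf : {ξ | α < ξ ∧ c α ξ = j ∧ J ξ = j}.Infinite := by
    have hev : ∀ᶠ ξ in (U : Filter ℕ), α < ξ ∧ c α ξ = j ∧ J ξ = j := by
      have h2 := hJ α
      rw [hα] at h2
      filter_upwards [hgt α, h2, hj] with ξ a b c using ⟨a, b, c⟩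
    intro hfin
    exact Filter.notMem_hyperfilter_of_finite hfin hev
  obtain ⟨S, hS, hSc⟩ := hinf.exists_subset_card_eq n
  have hβ : ∀ᶠ β in (U : Filter ℕ), ∀ ξ ∈ S, ξ < β ∧ c ξ β = j := by
    rw [Filter.eventually_all_finset]
    intro ξ hξ
    have h2 := hJ ξ
    rw [(hS hξ).2.2] at h2
    filter_upwards [hgt ξ, h2] with β a b using ⟨a, b⟩
  obtain ⟨β, hβ⟩ := hβ.exists
  exact ⟨α, β, j, S, hSc, fun ξ hξ => ⟨(hS hξ).1, (hβ ξ hξ).1, (hS hξ).2.1, (hβ ξ hξ).2⟩⟩

/-- a symmetric set out of the pairs -/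
theorem symm_of_pairs {G W R : Type u} [AddCommGroup G] {κ : Cardinal.{u}} (a : W → G)
    (ha : Function.Injective a) (h2 : ∀ w, ∃ g, a w = g + g) (χ : G → R) (α β : W) (j : R)
    (E : Set W) (hE : ∀ ξ ∈ E, χ (a ξ - a α) = j ∧ χ (a β - a ξ) = j) (hκ : κ ≤ #E) :
    ∃ A : Set G, IsSymmetric A ∧ (∀ x ∈ A, ∀ y ∈ A, χ x = χ y) ∧ κ ≤ #A := by
  obtain ⟨g, hg⟩ := h2 β
  obtain ⟨g', hg'⟩ := h2 α
  let A : Set G := (fun ξ => a ξ - a α) '' E ∪ (fun ξ => a β - a ξ) '' E
  have hcol : ∀ x ∈ A, χ x = j := by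
    rintro x (⟨ξ, hξ, rfl⟩ | ⟨ξ, hξ, rfl⟩)
    · exact (hE ξ hξ).1
    · exact (hE ξ hξ).2
  refine ⟨A, ⟨g - g', ?_⟩, fun x hx y hy => (hcol x hx).trans (hcol y hy).symm, ?_⟩
  · have hre : ∀ ξ, (g - g') + -(a ξ - a α) + (g - g') = a β - a ξ := by
      intro ξ
      rw [hg, hg']
      abel
    have hre' : ∀ ξ, (g - g') + -(a β - a ξ) + (g - g') = a ξ - a α := by
      intro ξ
      rw [hg, hg']
      abel
    ext x
    constructor
    · rintro (⟨ξ, hξ, rfl⟩ | ⟨ξ, hξ, rfl⟩)
      · exact ⟨a β - a ξ, Or.inr ⟨ξ, hξ, rfl⟩, hre' ξ⟩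
      · exact ⟨a ξ - a α, Or.inl ⟨ξ, hξ, rfl⟩, hre ξ⟩
    · rintro ⟨_, (⟨ξ, hξ, rfl⟩ | ⟨ξ, hξ, rfl⟩), rfl⟩
      · exact Or.inr ⟨ξ, hξ, (hre ξ).symm⟩
      · exact Or.inl ⟨ξ, hξ, (hre' ξ).symm⟩
  · refine hκ.trans ?_
    have hinj : Function.Injective (fun ξ => a ξ - a α) := fun x y hxy =>
      ha (sub_left_injective hxy)
    rw [← mk_image_eq hinj]
    exact mk_le_mk_of_subset subset_union_left

/-- all sets of elements of order two are symmetric -/
theorem symm_of_boolean {G R : Type u} [AddCommGroup G] {κ : Cardinal.{u}} (χ : G → R) (j : R)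
    (hκ : κ ≤ #{x : G | x + x = 0 ∧ χ x = j}) :
    ∃ A : Set G, IsSymmetric A ∧ (∀ x ∈ A, ∀ y ∈ A, χ x = χ y) ∧ κ ≤ #A := by
  refine ⟨_, ⟨0, ?_⟩, ?_, hκ⟩
  · have h : ∀ x : G, x + x = 0 → (0 : G) + -x + 0 = x := by
      intro x hx
      rw [zero_add, add_zero]
      exact neg_eq_of_add_eq_zero_left hx
    ext x
    constructor
    · intro hx
      exact ⟨x, hx, h x hx.1⟩
    · rintro ⟨y, hy, hyx⟩
      change 0 + -y + 0 = x at hyx
      rw [h y hy.1] at hyx
      rwa [← hyx]
  · intro x hx y hy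
    exact hx.2.trans hy.2.symm

/-- a group with few elements of order two has many elements divisible by two -/
theorem mk_le_double {G : Type u} [AddCommGroup G] :
    #G ≤ #(range fun g : G => g + g) * #{x : G | x + x = 0} := by
  have h : ∀ y : range (fun g : G => g + g), ∃ g : G, g + g = y.1 := fun y => y.2
  choose f hf using h
  let F : G → range (fun g : G => g + g) × {x : G | x + x = 0} := fun g =>
    (⟨g + g, g, rfl⟩, ⟨g - f ⟨g + g, g, rfl⟩, by
      have := hf ⟨g + g, g, rfl⟩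
      change g - f ⟨g + g, g, rfl⟩ + (g - f ⟨g + g, g, rfl⟩) = 0
      have h2 : g - f ⟨g + g, g, rfl⟩ + (g - f ⟨g + g, g, rfl⟩)
          = (g + g) - (f ⟨g + g, g, rfl⟩ + f ⟨g + g, g, rfl⟩) := by abel
      rw [h2, this]
      exact sub_self _⟩)
  have hF : Function.Injective F := by
    intro x y hxy
    have h1 := congrArg Prod.fst hxy
    have h2 := congrArg (fun z => (Prod.snd z).1) hxy
    change x - f (F x).1 = y - f (F y).1 at h2
    rw [hxy] at h2
    exact sub_left_injective h2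
  have := mk_le_of_injective hF
  rwa [mk_prod, lift_id, lift_id] at this

/-- For every cardinal `κ` and every infinite Abelian group `G` with `|G| > κ`, every cardinal `r`
for which some colouring of `G` with `r` colours has no monochromatic symmetric subset of
cardinality at least `κ` is infinite; that is, `ν(G, κ) ≥ ℵ₀`. -/
theorem result (κ : Cardinal.{u}) (G : Type u) [AddCommGroup G] [Infinite G] (hκG : κ < #G)
    (r : Cardinal.{u}) (hr : Avoids G κ r) : ℵ₀ ≤ r := by
  classical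
  obtain ⟨R, χ, rfl, hno⟩ := hr
  by_contra hlt
  rw [not_le] at hlt
  have : Finite R := Cardinal.lt_aleph0_iff_finite.1 hlt
  apply hno
  clear hno
  rcases le_or_gt ℵ₀ κ with hκ | hκ
  · -- infinite `κ`
    by_cases h2 : κ < #(range fun g : G => g + g)
    · have h3 : #(Order.succ κ).ord.ToType ≤ #(range fun g : G => g + g) := by
        rw [mk_ord_toType]
        exact Order.succ_le_of_lt h2
      obtain ⟨a⟩ := h3
      have hne : Nonempty (Order.succ κ).ord.ToType := by
        rw [← mk_ne_zero_iff, mk_ord_toType]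
        exact (Order.bot_lt_succ κ).ne'
      have hIio : ∀ x : (Order.succ κ).ord.ToType, #(Iio x) ≤ κ := fun x =>
        Order.lt_succ_iff.1 (mk_Iio_toType_ord_lt x)
      obtain ⟨α, β, j, hE⟩ := pairs_infinite (W := (Order.succ κ).ord.ToType) hκ
        (fun x => by
          rw [← Iio_insert]
          refine (mk_insert_le).trans ?_
          exact (add_le_add (hIio x) (one_le_aleph0.trans hκ)).trans (add_eq_self hκ).le)
        (fun A hA => by
          have h5 : ¬ IsCofinal A := by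
            intro h
            have h6 := Order.cof_le h
            rw [Ordinal.cof_toType, (isRegular_succ hκ).cof_ord] at h6
            exact absurd (h6.trans hA) (not_le.2 (Order.lt_succ κ))
          exact not_isCofinal_iff.1 h5) hlt (fun ξ η => χ ((a η).1 - (a ξ).1))
      exact symm_of_pairs (fun w => (a w).1) (Subtype.val_injective.comp a.injective)
        (fun w => by
          obtain ⟨g, hg⟩ := (a w).2
          exact ⟨g, hg.symm⟩) χ α β j _ (fun ξ hξ => ⟨hξ.2.2.1, hξ.2.2.2⟩) hE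
    · rw [not_lt] at h2
      have h3 : κ < #{x : G | x + x = 0} := by
        by_contra h4
        rw [not_lt] at h4
        exact absurd (mk_le_double.trans ((mul_le_mul' h2 h4).trans (mul_eq_self hκ).le))
          (not_le.2 hκG)
      obtain ⟨j, hj⟩ := infinite_pigeonhole_card (fun x : {x : G | x + x = 0} => χ x.1) κ h3.le hκ
        (hlt.trans_le (Ordinal.aleph0_le_cof.2 (isSuccLimit_ord hκ)))
      refine symm_of_boolean χ j (hj.trans ?_)
      rw [← mk_image_eq (f := fun x : {x : G | x + x = 0} => x.1) Subtype.val_injective]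
      refine mk_le_mk_of_subset ?_
      rintro _ ⟨x, hx, rfl⟩
      exact ⟨x.2, hx⟩
  · -- finite `κ`
    obtain ⟨n, rfl⟩ := lt_aleph0.1 hκ
    by_cases h2 : (range fun g : G => g + g).Infinite
    · let a : ℕ ↪ (range fun g : G => g + g) := Set.Infinite.natEmbedding _ h2
      obtain ⟨α, β, j, S, hS, hS'⟩ := pairs_finite n (fun ξ η => χ ((a η).1 - (a ξ).1))
      refine symm_of_pairs (W := ULift.{u} ℕ) (fun w => (a w.down).1)
        (Subtype.val_injective.comp (a.injective.comp ULift.down_injective))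
        (fun w => by
          obtain ⟨g, hg⟩ := (a w.down).2
          exact ⟨g, hg.symm⟩) χ ⟨α⟩ ⟨β⟩ j (ULift.down ⁻¹' (S : Set ℕ))
        (fun ξ hξ => ⟨(hS' _ hξ).2.2.1, (hS' _ hξ).2.2.2⟩) ?_
      have h5 : (ULift.down ⁻¹' (S : Set ℕ) : Set (ULift.{u} ℕ)) = ULift.up '' (S : Set ℕ) := by
        ext x
        constructor
        · intro hx
          exact ⟨x.down, hx, rfl⟩
        · rintro ⟨y, hy, rfl⟩
          exact hy
      rw [h5]
      have h6 := mk_image_eq_lift (ULift.up.{u} : ℕ → ULift.{u} ℕ) (S : Set ℕ) ULift.up_injective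
      rw [Finset.coe_sort_coe, mk_coe_finset, hS] at h6
      simpa using h6.ge
    · rw [not_infinite] at h2
      have h3 : Infinite {x : G | x + x = 0} := by
        by_contra h4
        rw [not_infinite_iff_finite] at h4
        have h5 : #G < ℵ₀ := by
          refine mk_le_double.trans_lt (mul_lt_aleph0 ?_ ?_)
          · exact lt_aleph0_iff_finite.2 h2
          · exact lt_aleph0_iff_finite.2 h4
        exact absurd (lt_aleph0_iff_finite.1 h5) (not_finite_iff_infinite.2 inferInstance)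
      obtain ⟨j, hj⟩ := Finite.exists_infinite_fiber (fun x : {x : G | x + x = 0} => χ x.1)
      refine symm_of_boolean χ j ?_
      have h6 : ℵ₀ ≤ #((fun x : {x : G | x + x = 0} => χ x.1) ⁻¹' {j}) := aleph0_le_mk _
      refine natCast_lt_aleph0.le.trans (h6.trans ?_)
      rw [← mk_image_eq (f := fun x : {x : G | x + x = 0} => x.1) Subtype.val_injective]
      refine mk_le_mk_of_subset ?_
      rintro _ ⟨x, hx, rfl⟩
      exact ⟨x.2, hx⟩

end Pool.Agent.Results.MP_d56e90_lc.ZFCAnswer
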